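import Pool.Agent.U481.GL.Stm

/-!
# Project GL, package APE: change of aperture
-/

set_option autoImplicit false

open MeasureTheory Filter Topology Set
open scoped ENNReal NNReal Real

namespace Pool.Agent.U255.GL

open Pool.Agent.U481.HW Pool.Agent.U481.GL

/-- the square of the area function -/
noncomputable def HH (a : ℝ) (G : ℝ × ℝ → ℝ≥0∞) (x : ℝ) : ℝ≥0∞ := ∫⁻ q in cone a x, G q

/-- the base of the cone -/
def JJ (a : ℝ) (q : ℝ × ℝ) : Set ℝ := Ioo (q.1 - a * q.2) (q.1 + a * q.2)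

theorem mem_cone (a x : ℝ) (q : ℝ × ℝ) : q ∈ cone a x ↔ x ∈ JJ a q := by
  unfold cone JJ
  simp only [mem_setOf_eq, mem_Ioo, abs_lt]
  constructor
  · rintro ⟨h1, h2⟩
    constructor <;> linarith
  · rintro ⟨h1, h2⟩
    constructor <;> linarith

/-- the integrand -/
noncomputable def Fn (a : ℝ) (G : ℝ × ℝ → ℝ≥0∞) (w : ℝ × (ℝ × ℝ)) : ℝ≥0∞ :=
  {w : ℝ × (ℝ × ℝ) | w.2 ∈ cone a w.1}.indicator (fun w => G w.2) w

theorem meas_set (a : ℝ) : MeasurableSet {w : ℝ × (ℝ × ℝ) | w.2 ∈ cone a w.1} := by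
  unfold cone
  simp only [mem_setOf_eq]
  exact measurableSet_lt (by fun_prop) (by fun_prop)

theorem meas_cone (a x : ℝ) : MeasurableSet (cone a x) := by
  unfold cone
  exact measurableSet_lt (by fun_prop) (by fun_prop)

theorem meas_Fn (a : ℝ) (G : ℝ × ℝ → ℝ≥0∞) (hG : Measurable G) : Measurable (Fn a G) := by
  unfold Fn
  exact (hG.comp measurable_snd).indicator (meas_set a)

theorem HH_eq (a : ℝ) (G : ℝ × ℝ → ℝ≥0∞) (x : ℝ) : HH a G x = ∫⁻ q, Fn a G (x, q) := by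
  unfold HH Fn
  rw [← lintegral_indicator (meas_cone a x)]
  rfl

theorem meas_HH (a : ℝ) (G : ℝ × ℝ → ℝ≥0∞) (hG : Measurable G) : Measurable (HH a G) := by
  have h : HH a G = fun x => ∫⁻ q, Fn a G (x, q) := funext fun x => HH_eq a G x
  rw [h]
  exact (meas_Fn a G hG).lintegral_prod_right'

theorem SG_sq (a : ℝ) (G : ℝ × ℝ → ℝ≥0∞) (x : ℝ) : SG a G x ^ (2 : ℝ) = HH a G x := by
  unfold SG HH
  rw [← ENNReal.rpow_mul]
  norm_num

theorem meas_SG (a : ℝ) (G : ℝ × ℝ → ℝ≥0∞) (hG : Measurable G) : Measurable (SG a G) := by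
  unfold SG
  exact (meas_HH a G hG).pow_const _

/-- Tonelli's theorem for the area function -/
theorem tonelli (μ : Measure ℝ) [SFinite μ] (a : ℝ) (G : ℝ × ℝ → ℝ≥0∞) (hG : Measurable G) (E : Set ℝ)
    (hE : MeasurableSet E) :
    ∫⁻ x in E, HH a G x ∂μ = ∫⁻ q, G q * μ (E ∩ JJ a q) := by
  have h1 : ∀ x, HH a G x = ∫⁻ q, Fn a G (x, q) := HH_eq a G
  simp_rw [h1]
  rw [lintegral_lintegral_swap (f := fun x q => Fn a G (x, q)) (meas_Fn a G hG).aemeasurable]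
  refine lintegral_congr fun q => ?_
  have h2 : ∀ x, Fn a G (x, q) = (JJ a q).indicator (fun _ => G q) x := by
    intro x
    unfold Fn
    by_cases h : q ∈ cone a x
    · rw [Set.indicator_of_mem (by exact h), Set.indicator_of_mem ((mem_cone a x q).1 h)]
    · rw [Set.indicator_of_notMem (by exact h),
        Set.indicator_of_notMem (fun h' => h ((mem_cone a x q).2 h'))]
  simp_rw [h2]
  rw [lintegral_indicator_const (by unfold JJ; exact measurableSet_Ioo),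
    Measure.restrict_apply (by unfold JJ; exact measurableSet_Ioo), Set.inter_comm]

/-- the superlevel sets of the maximal function are open -/
theorem open_MM (μ : Measure ℝ) (f : ℝ → ℝ≥0∞) (t : ℝ≥0∞) : IsOpen {x | t < MM μ f x} := by
  rw [isOpen_iff_mem_nhds]
  intro x hx
  simp only [mem_setOf_eq, MM, lt_iSup_iff] at hx
  obtain ⟨a, b, hab, h⟩ := hx
  filter_upwards [Ioo_mem_nhds hab.1 hab.2] with y hy
  simp only [mem_setOf_eq, MM, lt_iSup_iff]
  exact ⟨a, b, ⟨hy.1, hy.2⟩, h⟩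

/-- the estimate for one cone -/
theorem one_cone (μ : Measure ℝ) (hμ : ∀ a b : ℝ, μ (Ioo a b) < ⊤) (A : ℝ≥0∞) (hA0 : A ≠ 0) (hA : A ≠ ⊤)
    (a : ℝ) (ha : 1 ≤ a)
    (hd : ∀ x y : ℝ, 0 < y → μ (Ioo (x - a * y) (x + a * y)) ≤ A * μ (Ioo (x - y) (x + y)))
    (O : Set ℝ) (hO : MeasurableSet O) (q : ℝ × ℝ) :
    μ ({x | (2 * A)⁻¹ < MM μ (O.indicator 1) x}ᶜ ∩ JJ a q) ≤ 2 * A * μ (Oᶜ ∩ JJ 1 q) := by
  rcases Set.eq_empty_or_nonempty ({x | (2 * A)⁻¹ < MM μ (O.indicator 1) x}ᶜ ∩ JJ a q) with h0 | ⟨x, hx1, hx2⟩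
  · rw [h0, measure_empty]
    exact zero_le
  · have hq : 0 < q.2 := by
      have h1 := hx2.1
      have h2 := hx2.2
      by_contra hcon
      have : a * q.2 ≤ 0 := mul_nonpos_of_nonneg_of_nonpos (by linarith) (not_lt.1 hcon)
      linarith
    have hx3 : MM μ (O.indicator 1) x ≤ (2 * A)⁻¹ := not_lt.1 hx1
    -- the mean over the large interval
    have h1 : (∫⁻ y in JJ a q, O.indicator 1 y ∂μ) / μ (JJ a q) ≤ (2 * A)⁻¹ := by
      refine le_trans ?_ hx3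
      unfold MM
      exact le_iSup_of_le (q.1 - a * q.2) (le_iSup_of_le (q.1 + a * q.2)
        (le_iSup_of_le ⟨hx2.1, hx2.2⟩ le_rfl))
    have hJm : MeasurableSet (JJ a q) := measurableSet_Ioo
    have h2 : ∫⁻ y in JJ a q, O.indicator 1 y ∂μ = μ (O ∩ JJ a q) := by
      rw [lintegral_indicator_one hO, Measure.restrict_apply hO]
    rw [h2] at h1
    have hJ : JJ 1 q = Ioo (q.1 - q.2) (q.1 + q.2) := by unfold JJ; simp
    have h2A0 : 2 * A ≠ 0 := mul_ne_zero two_ne_zero hA0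
    have h2A : 2 * A ≠ ⊤ := ENNReal.mul_ne_top ENNReal.ofNat_ne_top hA
    have h3 : μ (O ∩ JJ a q) ≤ (2 * A)⁻¹ * μ (JJ a q) := by
      by_cases hz : μ (JJ a q) = 0
      · rw [measure_mono_null Set.inter_subset_right hz]
        exact zero_le
      · exact (ENNReal.div_le_iff hz (hμ _ _).ne).1 h1
    have h4 : μ (JJ a q) ≤ A * μ (JJ 1 q) := by
      rw [hJ]
      exact hd q.1 q.2 hq
    have h5 : 2 * μ (O ∩ JJ a q) ≤ μ (JJ 1 q) := by
      calc 2 * μ (O ∩ JJ a q) ≤ 2 * ((2 * A)⁻¹ * (A * μ (JJ 1 q))) := by gcongr; exact h3.trans (by gcongr)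
        _ = ((2 * A) * (2 * A)⁻¹) * μ (JJ 1 q) := by ring
        _ = μ (JJ 1 q) := by rw [ENNReal.mul_inv_cancel h2A0 h2A, one_mul]
    have hsub : JJ 1 q ⊆ JJ a q := by
      unfold JJ
      apply Ioo_subset_Ioo <;> nlinarith
    have h6 : 2 * μ (O ∩ JJ 1 q) ≤ μ (JJ 1 q) := by
      refine le_trans ?_ h5
      gcongr
    have h7 : μ (JJ 1 q) ≤ 2 * μ (Oᶜ ∩ JJ 1 q) := by
      have h8 : μ (JJ 1 q) ≤ μ (O ∩ JJ 1 q) + μ (Oᶜ ∩ JJ 1 q) := by
        refine le_trans (measure_mono ?_) (measure_union_le _ _)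
        intro y hy
        by_cases hyO : y ∈ O
        · exact Or.inl ⟨hyO, hy⟩
        · exact Or.inr ⟨hyO, hy⟩
      have h9 : 2 * μ (JJ 1 q) ≤ μ (JJ 1 q) + 2 * μ (Oᶜ ∩ JJ 1 q) := by
        calc 2 * μ (JJ 1 q) ≤ 2 * (μ (O ∩ JJ 1 q) + μ (Oᶜ ∩ JJ 1 q)) := by gcongr
          _ = 2 * μ (O ∩ JJ 1 q) + 2 * μ (Oᶜ ∩ JJ 1 q) := by ring
          _ ≤ μ (JJ 1 q) + 2 * μ (Oᶜ ∩ JJ 1 q) := by gcongr
      rw [two_mul] at h9
      have hfin : μ (JJ 1 q) ≠ ⊤ := (hμ _ _).ne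
      exact (ENNReal.add_le_add_iff_left hfin).1 h9
    calc μ ({x | (2 * A)⁻¹ < MM μ (O.indicator 1) x}ᶜ ∩ JJ a q) ≤ μ (JJ a q) :=
          measure_mono Set.inter_subset_right
      _ ≤ A * μ (JJ 1 q) := h4
      _ ≤ A * (2 * μ (Oᶜ ∩ JJ 1 q)) := by gcongr
      _ = 2 * A * μ (Oᶜ ∩ JJ 1 q) := by ring

/-- the estimate of the distribution function -/
theorem distr (hW : S_weak) (μ : Measure ℝ) [SFinite μ] (hμ : ∀ a b : ℝ, μ (Ioo a b) < ⊤) (A : ℝ≥0∞)
    (hA0 : A ≠ 0) (hA : A ≠ ⊤) (a : ℝ) (ha : 1 ≤ a)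
    (hd : ∀ x y : ℝ, 0 < y → μ (Ioo (x - a * y) (x + a * y)) ≤ A * μ (Ioo (x - y) (x + y)))
    (G : ℝ × ℝ → ℝ≥0∞) (hG : Measurable G) (t : ℝ≥0∞) (ht0 : t ≠ 0) (ht : t ≠ ⊤) :
    μ {x | t < SG a G x} ≤ 4 * A * μ {x | t < SG 1 G x} +
      2 * A * ((t ^ 2)⁻¹ * ∫⁻ x in {x | t < SG 1 G x}ᶜ, HH 1 G x ∂μ) := by
  set O : Set ℝ := {x | t < SG 1 G x} with hOd
  have hO : MeasurableSet O := measurableSet_lt measurable_const (meas_SG 1 G hG)
  set P : Set ℝ := {x | (2 * A)⁻¹ < MM μ (O.indicator 1) x} with hPd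
  have hP : MeasurableSet P := (open_MM μ _ _).measurableSet
  have h2A0 : 2 * A ≠ 0 := mul_ne_zero two_ne_zero hA0
  have h2A : 2 * A ≠ ⊤ := ENNReal.mul_ne_top ENNReal.ofNat_ne_top hA
  have hτ : (2 * A)⁻¹ ≠ ⊤ := ENNReal.inv_ne_top.2 h2A0
  -- the weak estimate
  have h1 : μ P ≤ 4 * A * μ O := by
    have h := hW μ hμ (O.indicator 1) (measurable_one.indicator hO) ((2 * A)⁻¹).toNNReal
    rw [ENNReal.coe_toNNReal hτ, lintegral_indicator_one hO] at h
    calc μ P = ((2 * A) * (2 * A)⁻¹) * μ P := by rw [ENNReal.mul_inv_cancel h2A0 h2A, one_mul]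
      _ = (2 * A) * ((2 * A)⁻¹ * μ P) := by ring
      _ ≤ (2 * A) * (2 * μ O) := by gcongr
      _ = 4 * A * μ O := by ring
  -- Chebyshev
  have h2 : ∫⁻ x in Pᶜ, HH a G x ∂μ ≤ 2 * A * ∫⁻ x in Oᶜ, HH 1 G x ∂μ := by
    rw [tonelli μ a G hG _ hP.compl, tonelli μ 1 G hG _ hO.compl, ← lintegral_const_mul']
    · refine lintegral_mono fun q => ?_
      calc G q * μ (Pᶜ ∩ JJ a q) ≤ G q * (2 * A * μ (Oᶜ ∩ JJ 1 q)) := by
            gcongr
            exact one_cone μ hμ A hA0 hA a ha hd O hO q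
        _ = 2 * A * (G q * μ (Oᶜ ∩ JJ 1 q)) := by ring
    · exact h2A
  have ht2 : t ^ 2 ≠ 0 := pow_ne_zero 2 ht0
  have ht2' : t ^ 2 ≠ ⊤ := ENNReal.pow_ne_top ht
  have h3 : μ ({x | t < SG a G x} ∩ Pᶜ) ≤ (t ^ 2)⁻¹ * ∫⁻ x in Pᶜ, HH a G x ∂μ := by
    have hm : MeasurableSet {x | t < SG a G x} := measurableSet_lt measurable_const (meas_SG a G hG)
    have h4 := mul_meas_ge_le_lintegral (μ := μ.restrict Pᶜ) (meas_HH a G hG) (t ^ 2)
    have h5 : (μ.restrict Pᶜ) {x | t < SG a G x} ≤ (μ.restrict Pᶜ) {x | t ^ 2 ≤ HH a G x} := by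
      refine measure_mono fun x hx => ?_
      rw [mem_setOf_eq] at hx ⊢
      rw [← SG_sq, ENNReal.rpow_two]
      gcongr
    rw [Measure.restrict_apply hm] at h5
    calc μ ({x | t < SG a G x} ∩ Pᶜ) = ((t ^ 2)⁻¹ * t ^ 2) * μ ({x | t < SG a G x} ∩ Pᶜ) := by
          rw [ENNReal.inv_mul_cancel ht2 ht2', one_mul]
      _ = (t ^ 2)⁻¹ * (t ^ 2 * μ ({x | t < SG a G x} ∩ Pᶜ)) := by ring
      _ ≤ (t ^ 2)⁻¹ * (t ^ 2 * (μ.restrict Pᶜ) {x | t ^ 2 ≤ HH a G x}) := by gcongr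
      _ ≤ (t ^ 2)⁻¹ * ∫⁻ x in Pᶜ, HH a G x ∂μ := by gcongr
  calc μ {x | t < SG a G x} ≤ μ P + μ ({x | t < SG a G x} ∩ Pᶜ) := by
        refine le_trans (measure_mono ?_) (measure_union_le _ _)
        intro x hx
        by_cases hxP : x ∈ P
        · exact Or.inl hxP
        · exact Or.inr ⟨hx, hxP⟩
    _ ≤ 4 * A * μ O + (t ^ 2)⁻¹ * (2 * A * ∫⁻ x in Oᶜ, HH 1 G x ∂μ) := by
        gcongr
        exact h3.trans (by gcongr)
    _ = 4 * A * μ O + 2 * A * ((t ^ 2)⁻¹ * ∫⁻ x in Oᶜ, HH 1 G x ∂μ) := by ring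

/-! ### layer cake -/

/-- the weight -/
noncomputable def wt (p t : ℝ) : ℝ≥0∞ := ENNReal.ofReal (p * t ^ (p - 1))

theorem meas_wt (p : ℝ) : Measurable (wt p) := by
  unfold wt
  fun_prop

open Classical in
/-- the powers as integrals, finite case -/
theorem lc_fin (p : ℝ) (hp : 0 < p) (x : ℝ) (hx : 0 ≤ x) :
    ∫⁻ t in Ioi (0 : ℝ), (if ENNReal.ofReal t < ENNReal.ofReal x then wt p t else 0) =
      ENNReal.ofReal x ^ p := by
  have h := lintegral_rpow_eq_lintegral_meas_lt_mul (Measure.dirac ()) (f := fun _ : Unit => x)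
    (Eventually.of_forall fun _ => hx) (measurable_const.aemeasurable) hp
  rw [lintegral_dirac] at h
  rw [ENNReal.ofReal_rpow_of_nonneg hx hp.le, h, ← lintegral_const_mul' _ _ ENNReal.ofReal_ne_top]
  refine setLIntegral_congr_fun measurableSet_Ioi fun t ht => ?_
  have ht0 : 0 < t := ht
  by_cases htx : t < x
  · have h1 : ENNReal.ofReal t < ENNReal.ofReal x := (ENNReal.ofReal_lt_ofReal_iff (ht0.trans htx)).2 htx
    have h2 : {a : Unit | t < x} = univ := by ext; simp [htx]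
    simp only [h1, if_true, h2, measure_univ, one_mul]
    unfold wt
    rw [ENNReal.ofReal_mul hp.le]
  · have h1 : ¬ ENNReal.ofReal t < ENNReal.ofReal x :=
      not_lt.2 (ENNReal.ofReal_le_ofReal (not_lt.1 htx))
    have h2 : {a : Unit | t < x} = ∅ := by ext; simp [htx]
    simp only [h1, if_false, h2, measure_empty, zero_mul, mul_zero]

open Classical in
/-- the powers as integrals -/
theorem lc (p : ℝ) (hp : 0 < p) (x : ℝ≥0∞) :
    ∫⁻ t in Ioi (0 : ℝ), (if ENNReal.ofReal t < x then wt p t else 0) = x ^ p := by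
  by_cases hx : x = ⊤
  · subst hx
    rw [ENNReal.top_rpow_of_pos hp, eq_top_iff]
    have h1 : Tendsto (fun n : ℕ => (n : ℝ≥0∞) ^ p) atTop (𝓝 ⊤) := by
      have h2 : Tendsto (fun n : ℕ => (n : ℝ≥0∞)) atTop (𝓝 ⊤) := ENNReal.tendsto_nat_nhds_top
      have h3 := (ENNReal.continuous_rpow_const (y := p)).tendsto ⊤
      rw [ENNReal.top_rpow_of_pos hp] at h3
      exact h3.comp h2
    refine le_of_tendsto' h1 fun n => ?_
    have h4 := lc_fin p hp n (Nat.cast_nonneg n)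
    rw [ENNReal.ofReal_natCast] at h4
    rw [← h4]
    refine lintegral_mono fun t => ?_
    simp only [ENNReal.ofReal_lt_top, if_true]
    split_ifs
    · exact le_rfl
    · exact zero_le
  · have h := lc_fin p hp x.toReal ENNReal.toReal_nonneg
    rwa [ENNReal.ofReal_toReal hx] at h

open Classical in
/-- the second integral -/
theorem lc2 (p : ℝ) (hp : 0 < p) (hp2 : p < 2) (x : ℝ≥0∞) :
    x ^ (2 : ℝ) * ∫⁻ t in Ioi (0 : ℝ), (if x ≤ ENNReal.ofReal t then wt p t * (ENNReal.ofReal t ^ 2)⁻¹ else 0) ≤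
      ENNReal.ofReal (p / (2 - p)) * x ^ p := by
  by_cases hx : x = ⊤
  · subst hx
    have : ∀ t : ℝ, ¬ (⊤ : ℝ≥0∞) ≤ ENNReal.ofReal t := fun t => not_le.2 ENNReal.ofReal_lt_top
    simp [this]
  by_cases hx0 : x = 0
  · subst hx0
    simp
  set y : ℝ := x.toReal with hy
  have hy0 : 0 < y := ENNReal.toReal_pos hx0 hx
  have hxy : x = ENNReal.ofReal y := (ENNReal.ofReal_toReal hx).symm
  have h1 : ∫⁻ t in Ioi (0 : ℝ), (if x ≤ ENNReal.ofReal t then wt p t * (ENNReal.ofReal t ^ 2)⁻¹ else 0) ≤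
      ENNReal.ofReal (p / (2 - p) * y ^ (p - 2)) := by
    have h2 : ∀ t ∈ Ioi (0 : ℝ), (if x ≤ ENNReal.ofReal t then wt p t * (ENNReal.ofReal t ^ 2)⁻¹ else 0) =
        (Ici y).indicator (fun t => ENNReal.ofReal (p * t ^ (p - 3))) t := by
      intro t ht
      have ht0 : 0 < t := ht
      by_cases hyt : y ≤ t
      · have h3 : x ≤ ENNReal.ofReal t := by rw [hxy]; exact ENNReal.ofReal_le_ofReal hyt
        rw [if_pos h3, Set.indicator_of_mem (show t ∈ Ici y from hyt)]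
        unfold wt
        rw [← ENNReal.ofReal_pow ht0.le, ← ENNReal.ofReal_inv_of_pos (by positivity),
          ← ENNReal.ofReal_mul (by positivity)]
        congr 1
        rw [show p - 1 = (p - 3) + 2 by ring, Real.rpow_add ht0, Real.rpow_two]
        field_simp
      · have h3 : ¬ x ≤ ENNReal.ofReal t := by
          rw [hxy, ENNReal.ofReal_le_ofReal_iff ht0.le]
          exact hyt
        rw [if_neg h3, Set.indicator_of_notMem (show t ∉ Ici y from hyt)]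
    rw [setLIntegral_congr_fun measurableSet_Ioi h2, setLIntegral_indicator measurableSet_Ici]
    have h4 : Ici y ∩ Ioi 0 = Ici y := by
      ext t
      simp only [mem_inter_iff, mem_Ici, mem_Ioi, and_iff_left_iff_imp]
      intro h
      linarith
    rw [h4, setLIntegral_congr Ioi_ae_eq_Ici.symm]
    have h5 := integrableOn_Ioi_rpow_of_lt (show p - 3 < -1 by linarith) hy0
    have h6 := integral_Ioi_rpow_of_lt (show p - 3 < -1 by linarith) hy0
    rw [← ofReal_integral_eq_lintegral_ofReal (h5.const_mul p)]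
    · rw [integral_const_mul, h6]
      apply le_of_eq
      congr 1
      have h7 : p - 3 + 1 = -(2 - p) := by ring
      rw [h7]
      have h8 : (2 - p) ≠ 0 := by linarith
      rw [show -(2 - p) = p - 2 by ring]
      have h9 : (p - 2) ≠ 0 := by linarith
      field_simp
      ring
    · filter_upwards [ae_restrict_mem measurableSet_Ioi] with t ht
      have ht0 : 0 < t := lt_trans hy0 ht
      positivity
  calc x ^ (2 : ℝ) * ∫⁻ t in Ioi (0 : ℝ), (if x ≤ ENNReal.ofReal t then wt p t * (ENNReal.ofReal t ^ 2)⁻¹ else 0)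
      ≤ x ^ (2 : ℝ) * ENNReal.ofReal (p / (2 - p) * y ^ (p - 2)) := by gcongr
    _ = ENNReal.ofReal (p / (2 - p)) * x ^ p := by
      rw [hxy, ENNReal.ofReal_rpow_of_pos hy0, ENNReal.ofReal_rpow_of_pos hy0,
        ← ENNReal.ofReal_mul (by positivity), ← ENNReal.ofReal_mul]
      · congr 1
        rw [show y ^ p = y ^ (2 : ℝ) * y ^ (p - 2) by rw [← Real.rpow_add hy0]; congr 1; ring]
        ring
      · have : 0 < 2 - p := by linarith
        positivity

open Classical in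
/-- Tonelli's theorem for the layer cake -/
theorem cake (μ : Measure ℝ) [SFinite μ] (g : ℝ → ℝ≥0∞) (hg : Measurable g) (p : ℝ) (hp : 0 < p) :
    ∫⁻ x, g x ^ p ∂μ = ∫⁻ t in Ioi (0 : ℝ), wt p t * μ {x | ENNReal.ofReal t < g x} := by
  have hm : MeasurableSet {w : ℝ × ℝ | ENNReal.ofReal w.2 < g w.1} :=
    measurableSet_lt (by fun_prop) (hg.comp measurable_fst)
  simp_rw [← lc p hp]
  rw [lintegral_lintegral_swap (f := fun x t => if ENNReal.ofReal t < g x then wt p t else 0)]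
  · refine lintegral_congr fun t => ?_
    have h1 : ∀ x, (if ENNReal.ofReal t < g x then wt p t else 0) =
        {x | ENNReal.ofReal t < g x}.indicator (fun _ => wt p t) x := by
      intro x
      by_cases hx : ENNReal.ofReal t < g x
      · rw [if_pos hx, Set.indicator_of_mem (show x ∈ {x | ENNReal.ofReal t < g x} from hx)]
      · rw [if_neg hx, Set.indicator_of_notMem (show x ∉ {x | ENNReal.ofReal t < g x} from hx)]
    simp_rw [h1]
    rw [lintegral_indicator_const (measurableSet_lt measurable_const hg)]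
  · exact (Measurable.ite hm ((meas_wt p).comp measurable_snd) measurable_const).aemeasurable

open Classical in
/-- Tonelli's theorem for the second integral -/
theorem cake2 (μ : Measure ℝ) [SFinite μ] (g h : ℝ → ℝ≥0∞) (hg : Measurable g) (hh : Measurable h)
    (hgh : ∀ x, h x = g x ^ (2 : ℝ)) (p : ℝ) (hp : 0 < p) (hp2 : p < 2) :
    ∫⁻ t in Ioi (0 : ℝ), wt p t * ((ENNReal.ofReal t ^ 2)⁻¹ *
      ∫⁻ x in {x | ENNReal.ofReal t < g x}ᶜ, h x ∂μ) ≤ ENNReal.ofReal (p / (2 - p)) * ∫⁻ x, g x ^ p ∂μ := by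
  have hm : MeasurableSet {w : ℝ × ℝ | g w.2 ≤ ENNReal.ofReal w.1} :=
    measurableSet_le (hg.comp measurable_snd) (by fun_prop)
  set v : ℝ → ℝ≥0∞ := fun t => wt p t * (ENNReal.ofReal t ^ 2)⁻¹ with hv
  have hvm : Measurable v := by
    rw [hv]
    exact (meas_wt p).mul (by fun_prop)
  have h1 : ∀ t : ℝ, wt p t * ((ENNReal.ofReal t ^ 2)⁻¹ * ∫⁻ x in {x | ENNReal.ofReal t < g x}ᶜ, h x ∂μ) =
      ∫⁻ x, h x * (if g x ≤ ENNReal.ofReal t then v t else 0) ∂μ := by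
    intro t
    have hms : MeasurableSet {x | ENNReal.ofReal t < g x}ᶜ := (measurableSet_lt measurable_const hg).compl
    rw [← mul_assoc, ← lintegral_indicator hms, ← lintegral_const_mul _ (hh.indicator hms)]
    refine lintegral_congr fun x => ?_
    by_cases hx : g x ≤ ENNReal.ofReal t
    · rw [Set.indicator_of_mem (show x ∈ {x | ENNReal.ofReal t < g x}ᶜ from not_lt.2 hx), if_pos hx, mul_comm]
    · rw [Set.indicator_of_notMem (show x ∉ {x | ENNReal.ofReal t < g x}ᶜ from fun h' => h' (not_le.1 hx)),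
        if_neg hx, mul_zero, mul_zero]
  simp_rw [h1]
  rw [lintegral_lintegral_swap (f := fun t x => h x * (if g x ≤ ENNReal.ofReal t then v t else 0))]
  · rw [← lintegral_const_mul _ (hg.pow_const p)]
    refine lintegral_mono fun x => ?_
    rw [lintegral_const_mul]
    · rw [hgh x]
      exact lc2 p hp hp2 (g x)
    · exact Measurable.ite (measurableSet_le measurable_const (by fun_prop)) hvm measurable_const
  · exact ((hh.comp measurable_snd).mul (Measurable.ite hm (hvm.comp measurable_fst)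
      measurable_const)).aemeasurable

theorem sfin (μ : Measure ℝ) (hμ : ∀ a b : ℝ, μ (Ioo a b) < ⊤) : SigmaFinite μ := by
  have : IsLocallyFiniteMeasure μ := ⟨fun x => ⟨Ioo (x - 1) (x + 1),
    Ioo_mem_nhds (by linarith) (by linarith), hμ _ _⟩⟩
  infer_instance

theorem main : S_weak → S_ape := by
  intro hW p hp hp2 K hK
  refine ⟨(4 + 2 * ENNReal.ofReal (p / (2 - p))) * max K 1, ?_, ?_⟩
  · refine ENNReal.mul_lt_top (ENNReal.add_lt_top.2 ⟨by norm_num, ENNReal.mul_lt_top (by norm_num)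
      ENNReal.ofReal_lt_top⟩) (max_lt hK ENNReal.one_lt_top)
  intro μ hμ s a hs ha hd G hG
  have := sfin μ hμ
  set A : ℝ≥0∞ := max K 1 * ENNReal.ofReal (a ^ s) with hA
  have ha0 : 0 < a := by linarith
  have hA0 : A ≠ 0 := by
    refine mul_ne_zero (ne_of_gt (lt_of_lt_of_le zero_lt_one (le_max_right _ _))) ?_
    rw [Ne, ENNReal.ofReal_eq_zero, not_le]
    positivity
  have hA1 : A ≠ ⊤ := ENNReal.mul_ne_top (max_lt hK ENNReal.one_lt_top).ne ENNReal.ofReal_ne_top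
  have hd' : ∀ x y : ℝ, 0 < y → μ (Ioo (x - a * y) (x + a * y)) ≤ A * μ (Ioo (x - y) (x + y)) := by
    intro x y hy
    refine (hd x y hy).trans ?_
    rw [hA]
    gcongr
    exact le_max_left _ _
  have h1 := cake μ (SG a G) (meas_SG a G hG) p hp
  have h2 := cake μ (SG 1 G) (meas_SG 1 G hG) p hp
  have h3 := cake2 μ (SG 1 G) (HH 1 G) (meas_SG 1 G hG) (meas_HH 1 G hG) (fun x => (SG_sq 1 G x).symm) p hp hp2
  have h4 : ∀ t ∈ Ioi (0 : ℝ), wt p t * μ {x | ENNReal.ofReal t < SG a G x} ≤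
      4 * A * (wt p t * μ {x | ENNReal.ofReal t < SG 1 G x}) +
      2 * A * (wt p t * ((ENNReal.ofReal t ^ 2)⁻¹ * ∫⁻ x in {x | ENNReal.ofReal t < SG 1 G x}ᶜ, HH 1 G x ∂μ)) := by
    intro t ht
    have h5 := distr hW μ hμ A hA0 hA1 a ha hd' G hG (ENNReal.ofReal t)
      (by rw [Ne, ENNReal.ofReal_eq_zero, not_le]; exact ht) ENNReal.ofReal_ne_top
    calc wt p t * μ {x | ENNReal.ofReal t < SG a G x} ≤ wt p t * (4 * A * μ {x | ENNReal.ofReal t < SG 1 G x} +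
          2 * A * ((ENNReal.ofReal t ^ 2)⁻¹ * ∫⁻ x in {x | ENNReal.ofReal t < SG 1 G x}ᶜ, HH 1 G x ∂μ)) := by
          gcongr
      _ = _ := by ring
  have hm1 : Measurable fun t : ℝ => wt p t * μ {x | ENNReal.ofReal t < SG 1 G x} := by
    refine (meas_wt p).mul ?_
    have hm : MeasurableSet {w : ℝ × ℝ | ENNReal.ofReal w.1 < SG 1 G w.2} :=
      measurableSet_lt (by fun_prop) ((meas_SG 1 G hG).comp measurable_snd)
    exact measurable_measure_prodMk_left hm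
  calc ∫⁻ x, SG a G x ^ p ∂μ = ∫⁻ t in Ioi (0 : ℝ), wt p t * μ {x | ENNReal.ofReal t < SG a G x} := h1
    _ ≤ ∫⁻ t in Ioi (0 : ℝ), (4 * A * (wt p t * μ {x | ENNReal.ofReal t < SG 1 G x}) +
      2 * A * (wt p t * ((ENNReal.ofReal t ^ 2)⁻¹ * ∫⁻ x in {x | ENNReal.ofReal t < SG 1 G x}ᶜ, HH 1 G x ∂μ))) :=
        setLIntegral_mono' measurableSet_Ioi h4
    _ = 4 * A * (∫⁻ t in Ioi (0 : ℝ), (wt p t * μ {x | ENNReal.ofReal t < SG 1 G x})) +
      2 * A * (∫⁻ t in Ioi (0 : ℝ), (wt p t * ((ENNReal.ofReal t ^ 2)⁻¹ *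
        ∫⁻ x in {x | ENNReal.ofReal t < SG 1 G x}ᶜ, HH 1 G x ∂μ))) := by
        rw [lintegral_add_left (hm1.const_mul _), lintegral_const_mul _ hm1,
          lintegral_const_mul' _ _ (ENNReal.mul_ne_top ENNReal.ofNat_ne_top hA1)]
    _ ≤ 4 * A * (∫⁻ x, SG 1 G x ^ p ∂μ) + 2 * A * (ENNReal.ofReal (p / (2 - p)) * ∫⁻ x, SG 1 G x ^ p ∂μ) := by
        rw [← h2]
        gcongr
    _ = (4 + 2 * ENNReal.ofReal (p / (2 - p))) * max K 1 * ENNReal.ofReal (a ^ s) * ∫⁻ x, SG 1 G x ^ p ∂μ := by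
        rw [hA]
        ring

end Pool.Agent.U255.GL
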